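import Mathlib

/-!
# Project MZ, job FC: a group ring identity in the nonabelian group of order 21
-/

set_option autoImplicit false

namespace Pool.Agent.Q38.MZ

variable {G A B : Type} [Group G] [Group A] [Group B] [Fintype G] [Fintype A] [Fintype B]

theorem disj (hA : Fintype.card A = 7) (hB : Fintype.card B = 3) (i : A →* G) (j : B →* G)
    (hi : Function.Injective i) (hj : Function.Injective j) {a : A} {b : B} (h : i a = j b) :
    a = 1 ∧ b = 1 := by
  have h1 : a ^ 7 = 1 := by
    rw [← hA]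
    exact pow_card_eq_one
  have h2 : b ^ 3 = 1 := by
    rw [← hB]
    exact pow_card_eq_one
  have h3 : i a ^ 3 = 1 := by rw [h, ← map_pow, h2, map_one]
  have h4 : a ^ 3 = 1 := hi (by rw [map_pow, h3, map_one])
  have h5 : a = 1 := by
    have : a = a ^ 7 * ((a ^ 3) ^ 2)⁻¹ := by
      rw [← pow_mul]
      norm_num
      rw [eq_mul_inv_iff_mul_eq, ← pow_succ']
    rw [this, h1, h4]
    simp
  refine ⟨h5, hj ?_⟩
  rw [← h, h5, map_one, map_one]

theorem prod_bij (hG : Fintype.card G = 21) (hA : Fintype.card A = 7) (hB : Fintype.card B = 3)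
    (i : A →* G) (j : B →* G) (hi : Function.Injective i) (hj : Function.Injective j) :
    Function.Bijective (fun p : A × B => i p.1 * j p.2) := by
  rw [Fintype.bijective_iff_injective_and_card]
  constructor
  · rintro ⟨a, b⟩ ⟨a', b'⟩ h
    have h : i a * j b = i a' * j b' := h
    have h1 : i (a'⁻¹ * a) = j (b' * b⁻¹) := by
      rw [map_mul, map_inv, map_mul, map_inv, inv_mul_eq_iff_eq_mul, ← mul_assoc,
        eq_mul_inv_iff_mul_eq, h]
    obtain ⟨h2, h3⟩ := disj hA hB i j hi hj h1
    rw [inv_mul_eq_one] at h2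
    rw [mul_inv_eq_one] at h3
    rw [h2, h3]
  · rw [Fintype.card_prod, hA, hB, hG]

theorem normal_range (hG : Fintype.card G = 21) (hA : Fintype.card A = 7) (i : A →* G)
    (hi : Function.Injective i) : i.range.Normal := by
  have h1 : Nat.card i.range = 7 := by
    rw [← hA, ← Nat.card_eq_fintype_card]
    exact (Nat.card_congr (MonoidHom.ofInjective hi).toEquiv).symm
  have h2 : i.range.index = 3 := by
    have h3 := i.range.card_mul_index
    rw [h1, Nat.card_eq_fintype_card, hG] at h3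
    omega
  apply Subgroup.normal_of_index_eq_minFac_card
  rw [h2, Nat.card_eq_fintype_card, hG]
  norm_num

theorem no_comm (hG : Fintype.card G = 21) (hA : Fintype.card A = 7) (hB : Fintype.card B = 3)
    (i : A →* G) (j : B →* G) (hi : Function.Injective i) (hj : Function.Injective j)
    (hnc : ∃ g h : G, g * h ≠ h * g) {a : A} {b : B} (hb : b ≠ 1) (h : i a * j b = j b * i a) :
    a = 1 := by
  by_contra ha
  obtain ⟨g, g', hg⟩ := hnc
  apply hg
  have hz : ∀ a' : A, a' ∈ Subgroup.zpowers a := by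
    haveI : Fact (Nat.Prime 7) := ⟨by norm_num⟩
    exact fun a' => mem_zpowers_of_prime_card (p := 7) (by rw [Nat.card_eq_fintype_card, hA]) ha
  have hz' : ∀ b' : B, b' ∈ Subgroup.zpowers b := by
    haveI : Fact (Nat.Prime 3) := ⟨by norm_num⟩
    exact fun b' => mem_zpowers_of_prime_card (p := 3) (by rw [Nat.card_eq_fintype_card, hB]) hb
  have hcc : ∀ a' b', i a' * j b' = j b' * i a' := by
    intro a' b'
    obtain ⟨n, hn⟩ := Subgroup.mem_zpowers_iff.1 (hz a')
    obtain ⟨m, hm⟩ := Subgroup.mem_zpowers_iff.1 (hz' b')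
    rw [← hn, ← hm, map_zpow, map_zpow]
    exact ((show Commute (i a) (j b) from h).zpow_zpow n m).eq
  have hA' : ∀ a1 a2 : A, a1 * a2 = a2 * a1 := by
    intro a1 a2
    obtain ⟨n, hn⟩ := Subgroup.mem_zpowers_iff.1 (hz a1)
    obtain ⟨m, hm⟩ := Subgroup.mem_zpowers_iff.1 (hz a2)
    rw [← hn, ← hm, ← zpow_add, ← zpow_add, add_comm]
  have hB' : ∀ b1 b2 : B, b1 * b2 = b2 * b1 := by
    intro b1 b2
    obtain ⟨n, hn⟩ := Subgroup.mem_zpowers_iff.1 (hz' b1)
    obtain ⟨m, hm⟩ := Subgroup.mem_zpowers_iff.1 (hz' b2)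
    rw [← hn, ← hm, ← zpow_add, ← zpow_add, add_comm]
  obtain ⟨⟨a1, b1⟩, h1⟩ := (prod_bij hG hA hB i j hi hj).2 g
  obtain ⟨⟨a2, b2⟩, h2⟩ := (prod_bij hG hA hB i j hi hj).2 g'
  have h1 : i a1 * j b1 = g := h1
  have h2 : i a2 * j b2 = g' := h2
  rw [← h1, ← h2]
  calc i a1 * j b1 * (i a2 * j b2) = i a1 * (j b1 * i a2) * j b2 := by group
    _ = i a1 * (i a2 * j b1) * j b2 := by rw [hcc a2 b1]
    _ = (i a1 * i a2) * (j b1 * j b2) := by group
    _ = (i a2 * i a1) * (j b2 * j b1) := by
        rw [← map_mul, ← map_mul, ← map_mul, ← map_mul, hA' a1 a2, hB' b1 b2]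
    _ = i a2 * (i a1 * j b2) * j b1 := by group
    _ = i a2 * (j b2 * i a1) * j b1 := by rw [hcc a1 b2]
    _ = i a2 * j b2 * (i a1 * j b1) := by group

theorem sum_prod (hG : Fintype.card G = 21) (hA : Fintype.card A = 7) (hB : Fintype.card B = 3)
    (i : A →* G) (j : B →* G) (hi : Function.Injective i) (hj : Function.Injective j)
    (F : G → ℤ) : ∑ b : B, ∑ a : A, F (i a * j b) = ∑ g : G, F g := by
  rw [Finset.sum_comm, ← Fintype.sum_prod_type' (f := fun a b => F (i a * j b))]
  exact Fintype.sum_bijective _ (prod_bij hG hA hB i j hi hj) _ _ (fun p => rfl)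

/-- the identity in the group ring -/
theorem group_id (hG : Fintype.card G = 21) (hA : Fintype.card A = 7) (hB : Fintype.card B = 3)
    (i : A →* G) (j : B →* G) (hi : Function.Injective i) (hj : Function.Injective j)
    (hnc : ∃ g h : G, g * h ≠ h * g) (F : G → ℤ) :
    7 * F 1 = (∑ a : A, ∑ b : B, F (i a * j b * (i a)⁻¹)) + (∑ a : A, F (i a)) -
      ∑ b : B, ∑ a : A, F (i a * j b) := by
  classical
  have key : ∀ b : B, b ≠ 1 → ∑ a : A, F (i a * j b * (i a)⁻¹) = ∑ a : A, F (i a * j b) := by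
    intro b hb
    have hn := normal_range hG hA i hi
    have h1 : ∀ a : A, ∃ a' : A, i a' = i a * (j b * (i a)⁻¹ * (j b)⁻¹) := by
      intro a
      have h2 := hn.conj_mem (i a)⁻¹ (i.range.inv_mem ⟨a, rfl⟩) (j b)
      exact i.range.mul_mem ⟨a, rfl⟩ h2
    choose φ hφ using h1
    have hinj : Function.Injective φ := by
      intro a a' haa
      have h3 := hφ a
      rw [haa, hφ a'] at h3
      have h4 : i (a'⁻¹ * a) * j b = j b * i (a'⁻¹ * a) := by
        have h5 : i a' * j b * (i a')⁻¹ = i a * j b * (i a)⁻¹ := by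
          have h6 := congrArg (fun z => z * j b) h3
          simp only [mul_assoc, inv_mul_cancel, mul_one] at h6
          simpa only [mul_assoc] using h6
        rw [map_mul, map_inv]
        calc (i a')⁻¹ * i a * j b = (i a')⁻¹ * (i a * j b * (i a)⁻¹) * i a := by group
          _ = (i a')⁻¹ * (i a' * j b * (i a')⁻¹) * i a := by rw [h5]
          _ = j b * ((i a')⁻¹ * i a) := by group
      have h7 := no_comm hG hA hB i j hi hj hnc hb h4
      rw [inv_mul_eq_one] at h7
      exact h7.symm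
    have hbij : Function.Bijective φ := Finite.injective_iff_bijective.1 hinj
    refine Fintype.sum_bijective φ hbij _ _ fun a => ?_
    congr 1
    rw [hφ]
    group
  have e1 : ∑ a : A, ∑ b : B, F (i a * j b * (i a)⁻¹) =
      ∑ b : B, ∑ a : A, F (i a * j b * (i a)⁻¹) := Finset.sum_comm
  rw [e1, ← Finset.add_sum_erase Finset.univ _ (Finset.mem_univ (1 : B)),
    ← Finset.add_sum_erase Finset.univ (fun b => ∑ a : A, F (i a * j b)) (Finset.mem_univ (1 : B))]
  rw [Finset.sum_congr rfl fun b hb => key b (Finset.ne_of_mem_erase hb)]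
  have e2 : ∀ a : A, i a * j 1 * (i a)⁻¹ = 1 := fun a => by
    rw [map_one, mul_one, mul_inv_cancel]
  have e3 : ∀ a : A, i a * j 1 = i a := fun a => by rw [map_one, mul_one]
  simp only [e2, e3, mul_inv_cancel, Finset.sum_const, Finset.card_univ, hA, nsmul_eq_mul]
  push_cast
  ring

end Pool.Agent.Q38.MZ
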