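import Mathlib

/-!
# Project MZ: the septic polynomial
-/

set_option autoImplicit false

namespace Pool.Agent.Q38.MZ

open Polynomial

/-- the septic polynomial -/
noncomputable def fZ : ℤ[X] := X ^ 7 - C 8 * X ^ 5 - C 2 * X ^ 4 + C 16 * X ^ 3 + C 6 * X ^ 2 - C 6 * X - C 2

theorem fZ_deg : fZ.natDegree = 7 := by
  unfold fZ
  compute_degree!

theorem fZ_monic : fZ.Monic := by
  unfold fZ
  monicity!

theorem fZ_irr : Irreducible fZ := by
  have hdeg : fZ.degree = 7 := by
    rw [degree_eq_natDegree fZ_monic.ne_zero, fZ_deg]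
    rfl
  have hP : (Ideal.span {(2 : ℤ)}).IsPrime := by
    rw [Ideal.span_singleton_prime (by norm_num)]
    exact Int.prime_two
  refine irreducible_of_eisenstein_criterion hP ?_ ?_ ?_ ?_ fZ_monic.isPrimitive
  · rw [fZ_monic.leadingCoeff, Ideal.mem_span_singleton]
    norm_num
  · intro n hn
    rw [hdeg] at hn
    have hn' : n < 7 := by exact_mod_cast hn
    rw [Ideal.mem_span_singleton]
    unfold fZ
    interval_cases n <;> simp [coeff_X, coeff_X_pow, coeff_C] <;> norm_num
  · rw [hdeg]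
    norm_num
  · unfold fZ
    rw [pow_two, Ideal.span_singleton_mul_span_singleton, Ideal.mem_span_singleton]
    simp [coeff_X, coeff_X_pow, coeff_C]

/-- the septic polynomial over `ℚ` -/
noncomputable def fQ : ℚ[X] := fZ.map (Int.castRingHom ℚ)

theorem fQ_monic : fQ.Monic := fZ_monic.map _

theorem fQ_deg : fQ.natDegree = 7 := by
  unfold fQ
  rw [fZ_monic.natDegree_map, fZ_deg]

theorem fQ_irr : Irreducible fQ := by
  have h := (IsPrimitive.Int.irreducible_iff_irreducible_map_cast fZ_monic.isPrimitive).1 fZ_irr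
  exact h

theorem aeval_fZ {R : Type*} [CommRing R] (x : R) :
    aeval x fZ = x ^ 7 - 8 * x ^ 5 - 2 * x ^ 4 + 16 * x ^ 3 + 6 * x ^ 2 - 6 * x - 2 := by
  unfold fZ
  simp [Polynomial.aeval_def]

theorem aeval_fQ {R : Type*} [CommRing R] [Algebra ℚ R] (x : R) :
    aeval x fQ = x ^ 7 - 8 * x ^ 5 - 2 * x ^ 4 + 16 * x ^ 3 + 6 * x ^ 2 - 6 * x - 2 := by
  unfold fQ fZ
  simp [Polynomial.aeval_def]

end Pool.Agent.Q38.MZ
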