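import Pool.Agent.Q38.MZ.FCa
import Pool.Agent.Q38.MZ.FCb
import Pool.Agent.Q38.MZ.Sept

/-!
# Project MZ, job FC: the class group of the field of degree 21 has odd order
-/

set_option autoImplicit false
set_option linter.unusedSectionVars false

namespace Pool.Agent.Q38.MZ

open NumberField IsDedekindDomain Module
open Pool.Agent.Q92.AR (Dv prin nmD up sD prin_mul prin_inv prin_one)
open Pool.Agent.TeamU (act val_act act_mul act_one)
open Pool.Agent.Q149.AR
open Pool.Agent.Q5.MZ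
open scoped IntermediateField

theorem isReal_of_odd (K : Type) [Field K] [NumberField K] [IsGalois ℚ K]
    (h : Odd (finrank ℚ K)) : IsTotallyReal K := by
  have h1 := IsUnramifiedAtInfinitePlaces_of_odd_finrank (k := ℚ) (K := K) h
  refine ⟨fun w => ?_⟩
  have h2 := h1.isUnramified w
  rw [InfinitePlace.isUnramified_iff] at h2
  rcases h2 with h2 | h2
  · exact h2
  · exfalso
    have h3 : (w.comap (algebraMap ℚ K)).IsReal := by
      rw [Subsingleton.elim (w.comap (algebraMap ℚ K)) Rat.infinitePlace]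
      exact Rat.isReal_infinitePlace
    exact (InfinitePlace.not_isReal_iff_isComplex.2 h2) h3

theorem totReal_of (K : Type) [Field K] [NumberField K] [IsTotallyReal K] : TotReal K := by
  intro φ x
  have h := IsTotallyReal.complexEmbedding_isReal φ
  have h2 := congrArg (fun ψ : K →+* ℂ => ψ x) h
  exact h2

section
variable {K : Type} [Field K] [NumberField K] {θ l : K}

theorem deg_N (hθ : RootN θ) : finrank ℚ ℚ⟮θ⟯ = 7 := by
  have h1 : minpoly ℚ θ = fQ := by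
    refine (minpoly.eq_of_irreducible_of_monic fQ_irr ?_ fQ_monic).symm
    rw [aeval_fQ]
    exact hθ
  rw [IntermediateField.adjoin.finrank (Algebra.IsIntegral.isIntegral θ), h1, fQ_deg]

theorem l_notin (hl : RootL l) : l ∉ (algebraMap ℚ K).range := by
  rintro ⟨q, hq⟩
  have h1 : RootL q := by
    apply (algebraMap ℚ K).injective
    rw [map_zero]
    unfold RootL at hl
    rw [← hq] at hl
    rw [← hl]
    simp
  have h2 : IsIntegral ℤ q := by
    refine ⟨Polynomial.X ^ 3 + Polynomial.X ^ 2 - Polynomial.C 24 * Polynomial.X - Polynomial.C 27, ?_, ?_⟩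
    · monicity!
    · simp
      exact h1
  obtain ⟨n, hn⟩ := IsIntegrallyClosed.isIntegral_iff.1 h2
  have h3 : n ^ 3 + n ^ 2 - 24 * n - 27 = 0 := by
    unfold RootL at h1
    rw [← hn] at h1
    have h4 : (algebraMap ℤ ℚ) n = (n : ℚ) := rfl
    rw [h4] at h1
    exact_mod_cast h1
  have h5 : (n ^ 3 + n ^ 2 - 24 * n - 27) % 2 = 1 := by
    rcases Int.emod_two_eq_zero_or_one n with h | h
    · obtain ⟨m, hm⟩ : ∃ m, n = 2 * m := ⟨n / 2, by omega⟩
      rw [hm]
      ring_nf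
      omega
    · obtain ⟨m, hm⟩ : ∃ m, n = 2 * m + 1 := ⟨n / 2, by omega⟩
      rw [hm]
      ring_nf
      omega
  rw [h3] at h5
  norm_num at h5

theorem deg_L (hdeg : finrank ℚ K = 21) (hl : RootL l) : finrank ℚ ℚ⟮l⟯ = 3 := by
  have h1 : (minpoly ℚ l).natDegree ≤ 3 := by
    have h2 : Polynomial.aeval l (Polynomial.X ^ 3 + Polynomial.X ^ 2 -
        Polynomial.C 24 * Polynomial.X - Polynomial.C 27 : Polynomial ℚ) = 0 := by
      simp
      exact hl
    have h3 : (Polynomial.X ^ 3 + Polynomial.X ^ 2 -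
        Polynomial.C 24 * Polynomial.X - Polynomial.C 27 : Polynomial ℚ).Monic := by monicity!
    have h4 := Polynomial.natDegree_le_of_dvd (minpoly.dvd ℚ l h2) h3.ne_zero
    have h5 : (Polynomial.X ^ 3 + Polynomial.X ^ 2 -
        Polynomial.C 24 * Polynomial.X - Polynomial.C 27 : Polynomial ℚ).natDegree = 3 := by
      compute_degree!
    rwa [h5] at h4
  rw [← IntermediateField.adjoin.finrank (Algebra.IsIntegral.isIntegral l)] at h1
  have h6 : finrank ℚ ℚ⟮l⟯ ∣ 21 := by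
    rw [← hdeg]
    exact ⟨_, (finrank_mul_finrank ℚ ℚ⟮l⟯ K).symm⟩
  have h7 : finrank ℚ ℚ⟮l⟯ ≠ 1 := by
    intro h
    rw [IntermediateField.finrank_adjoin_simple_eq_one_iff, IntermediateField.mem_bot] at h
    exact l_notin hl h
  have h8 : 0 < finrank ℚ ℚ⟮l⟯ := finrank_pos
  interval_cases h9 : finrank ℚ ℚ⟮l⟯
  · exact absurd rfl h7
  · norm_num at h6
  · rfl

end

theorem fc : J_FC := by
  intro hFN hFL K _ _ θ l hK D
  classical
  haveI := hK.gal
  haveI hreal : IsTotallyReal K := isReal_of_odd K (by rw [hK.deg]; decide)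
  have hdN := deg_N hK.rN
  have hdL := deg_L hK.deg hK.rL
  have hN : ClassTwo ℚ⟮θ⟯ := by
    refine hFN ℚ⟮θ⟯ (IntermediateField.AdjoinSimple.gen ℚ θ) hdN ?_ (totReal_of _)
    have h := hK.rN
    unfold RootN at h ⊢
    apply (algebraMap ℚ⟮θ⟯ K).injective
    rw [map_zero, ← h]
    simp only [map_sub, map_add, map_mul, map_pow, map_ofNat,
      IntermediateField.AdjoinSimple.algebraMap_gen]
  have hL : ClassTwo ℚ⟮l⟯ := by
    refine hFL ℚ⟮l⟯ (IntermediateField.AdjoinSimple.gen ℚ l) hdL ?_ (totReal_of _)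
    have h := hK.rL
    unfold RootL at h ⊢
    apply (algebraMap ℚ⟮l⟯ K).injective
    rw [map_zero, ← h]
    simp only [map_sub, map_add, map_mul, map_pow, map_ofNat,
      IntermediateField.AdjoinSimple.algebraMap_gen]
  letI : Fintype (K ≃ₐ[ℚ] K) := Fintype.ofFinite _
  letI : Fintype (K ≃ₐ[ℚ⟮l⟯] K) := Fintype.ofFinite _
  letI : Fintype (K ≃ₐ[ℚ⟮θ⟯] K) := Fintype.ofFinite _
  have hG : Fintype.card (K ≃ₐ[ℚ] K) = 21 := by
    rw [← Nat.card_eq_fintype_card, IsGalois.card_aut_eq_finrank, hK.deg]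
  have hA : Fintype.card (K ≃ₐ[ℚ⟮l⟯] K) = 7 := by
    rw [← Nat.card_eq_fintype_card, IsGalois.card_aut_eq_finrank]
    have h := finrank_mul_finrank ℚ ℚ⟮l⟯ K
    rw [hdL, hK.deg] at h
    omega
  have hB : Fintype.card (K ≃ₐ[ℚ⟮θ⟯] K) = 3 := by
    rw [← Nat.card_eq_fintype_card, IsGalois.card_aut_eq_finrank]
    have h := finrank_mul_finrank ℚ ℚ⟮θ⟯ K
    rw [hdN, hK.deg] at h
    omega
  obtain ⟨i, hi⟩ : ∃ i : (K ≃ₐ[ℚ⟮l⟯] K) →* (K ≃ₐ[ℚ] K), i = AlgEquiv.restrictScalarsHom ℚ := ⟨_, rfl⟩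
  obtain ⟨j, hj⟩ : ∃ j : (K ≃ₐ[ℚ⟮θ⟯] K) →* (K ≃ₐ[ℚ] K), j = AlgEquiv.restrictScalarsHom ℚ := ⟨_, rfl⟩
  have hii : Function.Injective i := by
    rw [hi]
    exact AlgEquiv.restrictScalarsHom_injective ℚ
  have hjj : Function.Injective j := by
    rw [hj]
    exact AlgEquiv.restrictScalarsHom_injective ℚ
  have hai : ∀ (a : K ≃ₐ[ℚ⟮l⟯] K) (w : HeightOneSpectrum (𝓞 K)), act (i a) w = act a w := by
    intro a w
    rw [hi]
    rfl
  have haj : ∀ (b : K ≃ₐ[ℚ⟮θ⟯] K) (w : HeightOneSpectrum (𝓞 K)), act (j b) w = act b w := by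
    intro b w
    rw [hj]
    rfl
  have hnc := hK.nc
  -- away from `2`
  have h2act : ∀ (g : K ≃ₐ[ℚ] K) (w : HeightOneSpectrum (𝓞 K)), (2 : 𝓞 K) ∉ w.asIdeal →
      (2 : 𝓞 K) ∉ (act g w).asIdeal := by
    intro g w hw h
    apply hw
    rw [Pool.Agent.TeamU.mem_act] at h
    rwa [map_ofNat] at h
  -- the traces
  choose xa hxa using fun a : K ≃ₐ[ℚ⟮l⟯] K => trace_prin hN (sD (i a)⁻¹ D)
  obtain ⟨x', hx'⟩ := trace_prin hL D
  refine ⟨-(3 : ℤ) • D, (∏ a, ac (i a) (xa a)) * x' * (∏ b, ac (j b)⁻¹ x')⁻¹, fun w hw => ?_⟩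
  have hid := group_id hG hA hB i j hii hjj hnc (fun g => D (act g w))
  simp only [act_one] at hid
  have e1 : ∀ a : K ≃ₐ[ℚ⟮l⟯] K, ∑ b : K ≃ₐ[ℚ⟮θ⟯] K, D (act (i a * j b * (i a)⁻¹) w) =
      prin (ac (i a) (xa a)) w := by
    intro a
    rw [prin_ac', ← hxa a _ (h2act _ w hw)]
    refine Finset.sum_congr rfl fun b _ => ?_
    rw [sD_apply, inv_inv, ← haj, ← act_mul, ← act_mul, mul_assoc]
  have e2 : ∑ a : K ≃ₐ[ℚ⟮l⟯] K, D (act (i a) w) = prin x' w := by
    rw [← hx' w hw]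
    exact Finset.sum_congr rfl fun a _ => by rw [hai]
  have e3 : ∀ b : K ≃ₐ[ℚ⟮θ⟯] K, ∑ a : K ≃ₐ[ℚ⟮l⟯] K, D (act (i a * j b) w) =
      prin (ac (j b)⁻¹ x') w := by
    intro b
    rw [prin_ac', inv_inv, ← hx' _ (h2act _ w hw)]
    refine Finset.sum_congr rfl fun a _ => ?_
    rw [act_mul, hai]
  have hprod : ∀ {ι : Type} [Fintype ι] (f : ι → Kˣ), prin (∏ a, f a) w = ∑ a, prin (f a) w := by
    intro ι _ f
    have h := map_sum (Pool.Agent.Q92.AR.prinHom (F := K)) (fun a => Additive.ofMul (f a)) Finset.univ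
    have h2 : Pool.Agent.Q92.AR.prinHom (F := K) (∑ a, Additive.ofMul (f a)) = prin (∏ a, f a) := by
      rw [← ofMul_prod]
      rfl
    rw [h2] at h
    rw [h, Finsupp.finset_sum_apply]
    rfl
  rw [prin_mul, prin_mul, prin_inv, Finsupp.add_apply, Finsupp.add_apply, Finsupp.neg_apply,
    hprod, hprod, Finsupp.smul_apply, smul_eq_mul]
  rw [Finset.sum_congr rfl fun a _ => e1 a, e2, Finset.sum_congr rfl fun b _ => e3 b] at hid
  linarith

end Pool.Agent.Q38.MZ
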