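import Pool.Agent.Q5.MZ.Stm3
import Pool.Agent.Q149.AR.SD2

/-!
# Project MZ, job FC: the sum over a Galois group of the conjugates of a divisor
-/

set_option autoImplicit false
set_option linter.unusedSectionVars false

namespace Pool.Agent.Q38.MZ

open NumberField IsDedekindDomain Module
open Pool.Agent.Q92.AR (Dv prin nmD up)
open Pool.Agent.Q5.BR (above mem_above rdeg)
open Pool.Agent.TeamU (act val_act act_mul act_one Over val_over)
open Pool.Agent.Q149.AR
open Pool.Agent.Q5.MZ

section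
variable {F E : Type} [Field F] [NumberField F] [Field E] [NumberField E] [Algebra F E]

/-- the ramification index of `w` over the prime below -/
noncomputable def ee (F : Type) [Field F] [NumberField F] {E : Type} [Field E] [NumberField E]
    [Algebra F E] (w : HeightOneSpectrum (𝓞 E)) : ℕ :=
  Ideal.ramificationIdx' (w.under (𝓞 F)).asIdeal w.asIdeal

theorem sum_e_f (v : HeightOneSpectrum (𝓞 F)) :
    ∑ w ∈ above E v, ee F w * rdeg F w = finrank F E := by
  have hvm : v.asIdeal.IsMaximal := v.isMaximal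
  rw [← Ideal.sum_ramification_inertia (𝓞 E) F E v.ne_bot]
  refine Finset.sum_bij (fun w _ => w.asIdeal) ?_ ?_ ?_ ?_
  · intro w hw
    rw [IsDedekindDomain.mem_primesOverFinset_iff v.ne_bot]
    refine ⟨w.isPrime, ⟨?_⟩⟩
    rw [← mem_above.1 hw]
    rfl
  · intro w _ w' _ h
    exact HeightOneSpectrum.ext h
  · intro P hP
    rw [IsDedekindDomain.mem_primesOverFinset_iff v.ne_bot] at hP
    obtain ⟨hP1, hP2⟩ := hP
    refine ⟨⟨P, hP1, fun h => v.ne_bot ?_⟩, mem_above.2 (HeightOneSpectrum.ext ?_), rfl⟩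
    · rw [hP2.over, h]
      rw [eq_bot_iff]
      intro x hx
      rw [Ideal.mem_bot]
      have hx2 : algebraMap (𝓞 F) (𝓞 E) x = 0 := hx
      exact (map_eq_zero_iff _ (FaithfulSMul.algebraMap_injective (𝓞 F) (𝓞 E))).1 hx2
    · exact hP2.over.symm
  · intro w hw
    unfold ee rdeg
    rw [mem_above.1 hw]

/-- a uniformizer, as a unit of the field -/
theorem exists_unif (v : HeightOneSpectrum (𝓞 F)) : ∃ x : Fˣ, prin x v = 1 := by
  obtain ⟨x, hx⟩ := v.valuation_exists_uniformizer F
  have hx0 : x ≠ 0 := by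
    rintro rfl
    rw [map_zero] at hx
    exact absurd hx.symm (WithZero.exp_ne_zero)
  refine ⟨Units.mk0 x hx0, ?_⟩
  rw [prin_eq_neg_log, Units.val_mk0, hx, WithZero.log_exp]
  norm_num

theorem prin_up' (c : Fˣ) (w : HeightOneSpectrum (𝓞 E)) :
    prin (up F E c) w = (ee F w : ℤ) * prin c (w.under (𝓞 F)) := by
  rw [prin_eq_neg_log, prin_eq_neg_log]
  have hov : Over w (w.under (𝓞 F)) := rfl
  have h1 : w.valuation E ((up F E c : Eˣ) : E) =
      (w.under (𝓞 F)).valuation F (c : F) ^ ((w.under (𝓞 F)).asIdeal.ramificationIdx' w.asIdeal) :=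
    val_over hov (c : F)
  rw [h1, WithZero.log_pow, nsmul_eq_mul, mul_neg]
  rfl

/-- the action on elements -/
noncomputable def ac (g : E ≃ₐ[F] E) : Eˣ →* Eˣ := Units.map (g : E →* E)

theorem prin_ac (g : E ≃ₐ[F] E) (x : Eˣ) (w : HeightOneSpectrum (𝓞 E)) :
    prin (ac g x) (act g w) = prin x w := by
  rw [prin_eq_neg_log, prin_eq_neg_log]
  have h : ((ac g x : Eˣ) : E) = g (x : E) := rfl
  rw [h, val_act]

theorem prin_ac' (g : E ≃ₐ[F] E) (x : Eˣ) (w : HeightOneSpectrum (𝓞 E)) :
    prin (ac g x) w = prin x (act g⁻¹ w) := by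
  conv_lhs => rw [← act_act_inv g w]
  exact prin_ac g x _

theorem ee_act (g : E ≃ₐ[F] E) (w : HeightOneSpectrum (𝓞 E)) : ee F (act g w) = ee F w := by
  obtain ⟨x, hx⟩ := exists_unif (w.under (𝓞 F))
  have h1 := prin_up' (E := E) x w
  have h2 := prin_up' (E := E) x (act g w)
  have h3 : ac g (up F E x) = up F E x := by
    apply Units.ext
    exact g.commutes (x : F)
  rw [act_under, ← h3, prin_ac, h1, hx, mul_one, mul_one] at h2
  exact_mod_cast h2.symm

/-- the number of automorphisms moving `w` to `w'` -/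
theorem card_move' [IsGalois F E] {v : HeightOneSpectrum (𝓞 F)}
    {w w' : HeightOneSpectrum (𝓞 E)} (hw : w.under (𝓞 F) = v) (hw' : w'.under (𝓞 F) = v) :
    Nat.card {g : E ≃ₐ[F] E // act g w = w'} = ee F w * rdeg F w' := by
  classical
  have : Fintype (E ≃ₐ[F] E) := Fintype.ofFinite _
  have h1 : ∀ w1 ∈ above E v, Nat.card {g : E ≃ₐ[F] E // act g w = w1} =
      Nat.card {g : E ≃ₐ[F] E // act g w = w'} := by
    intro w1 hw1
    obtain ⟨h, hh⟩ := trans_act (w := w1) (w' := w') (by rw [mem_above.1 hw1, hw'])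
    refine Nat.card_congr ⟨fun g => ⟨h * g.1, by rw [act_mul, g.2, hh]⟩,
      fun g => ⟨h⁻¹ * g.1, by rw [act_mul, g.2, ← hh, act_inv_act]⟩, fun g => ?_, fun g => ?_⟩
    · apply Subtype.ext
      simp
    · apply Subtype.ext
      simp
  have h2 : ∀ w1 ∈ above E v, ee F w1 * rdeg F w1 = ee F w * rdeg F w' := by
    intro w1 hw1
    obtain ⟨h, hh⟩ := trans_act (w := w1) (w' := w') (by rw [mem_above.1 hw1, hw'])
    obtain ⟨h', hh'⟩ := trans_act (w := w1) (w' := w) (by rw [mem_above.1 hw1, hw])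
    rw [← hh, ← hh', rdeg_act, ee_act]
  have h3 := sum_e_f (E := E) v
  rw [Finset.sum_congr rfl h2, Finset.sum_const, smul_eq_mul] at h3
  have h4 : ∑ w1 ∈ above E v, Nat.card {g : E ≃ₐ[F] E // act g w = w1} = finrank F E := by
    rw [← card_gal, Nat.card_eq_fintype_card, ← Finset.card_univ,
      Finset.card_eq_sum_card_fiberwise (f := fun g : E ≃ₐ[F] E => act g w) (t := above E v)]
    · refine Finset.sum_congr rfl fun w1 _ => ?_
      rw [Nat.card_eq_fintype_card, Fintype.card_subtype]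
    · intro g _
      have : (act g w).under (𝓞 F) = v := by rw [act_under, hw]
      exact mem_above.2 this
  rw [Finset.sum_congr rfl h1, Finset.sum_const, smul_eq_mul, ← h3] at h4
  have h5 : 0 < (above E v).card := Finset.card_pos.2 ⟨w, mem_above.2 hw⟩
  exact Nat.eq_of_mul_eq_mul_left h5 h4

/-- the trace of a divisor is the divisor generated by its norm -/
theorem sum_act [IsGalois F E] [Fintype (E ≃ₐ[F] E)] (D : Dv E) (w : HeightOneSpectrum (𝓞 E)) :
    ∑ g : E ≃ₐ[F] E, D (act g w) = (ee F w : ℤ) * nmD F E D (w.under (𝓞 F)) := by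
  classical
  rw [nmD_apply, Finset.mul_sum]
  rw [← Finset.sum_fiberwise_of_maps_to (t := above E (w.under (𝓞 F)))
    (g := fun g : E ≃ₐ[F] E => act g w) (fun g _ => mem_above.2 (act_under g w))]
  refine Finset.sum_congr rfl fun w' hw' => ?_
  have h2 : ∀ g ∈ (Finset.univ : Finset (E ≃ₐ[F] E)).filter (fun g => act g w = w'),
      D (act g w) = D w' := fun g hg => by rw [(Finset.mem_filter.1 hg).2]
  rw [Finset.sum_congr rfl h2, Finset.sum_const, nsmul_eq_mul, ← mul_assoc]
  congr 1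
  have h3 := card_move' (F := F) (w := w) (w' := w') rfl (mem_above.1 hw')
  rw [Nat.card_eq_fintype_card, Fintype.card_subtype] at h3
  rw [h3]
  push_cast
  rfl

/-- if the class number of `F` is one away from `2` then traces of divisors are principal away from `2` -/
theorem trace_prin [IsGalois F E] [Fintype (E ≃ₐ[F] E)] (hF : ClassTwo F) (D : Dv E) :
    ∃ x : Eˣ, ∀ w : HeightOneSpectrum (𝓞 E), (2 : 𝓞 E) ∉ w.asIdeal →
      ∑ g : E ≃ₐ[F] E, D (act g w) = prin x w := by
  obtain ⟨y, hy⟩ := hF (nmD F E D)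
  refine ⟨up F E y, fun w hw => ?_⟩
  rw [sum_act, prin_up', hy]
  intro h2
  apply hw
  have h3 : algebraMap (𝓞 F) (𝓞 E) (2 : 𝓞 F) ∈ w.asIdeal := h2
  rwa [map_ofNat] at h3

end

end Pool.Agent.Q38.MZ
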